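import Mathlib
import Pool.Agent.X333.DC.Rgi

/-!
MP_dc0411_ag, Q1: entire curves, subvarieties of log general type and pointed curves for the affine
and projective varieties with a dominant generically finite morphism from the complement of
coordinate hyperplanes in a complex variety given by nested sums of high powers of monomials.

`V` is an irreducible component, with function field `K` and generic point `y`, of a complex
projective variety `{F = 0}` given by nested sums of high powers of monomials, and `V°` is the
complement in `V` of the hyperplanes `x_j = 0`, `j` in `U`. `X` is the projective variety with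
function field `L` and generic point `x` (`coords ℂ x = ⊤` says that the ratios of the coordinates
generate the function field, `eqs ℂ x` are the forms which vanish on `X`), and `X°` is the
complement in `X` of the hypersurface `Q = 0`; all affine varieties (`Q = x_0`) and all projective
varieties (`Q = 1`) are of this form. The inclusion `L ⊂ K` is a dominant rational map from `V` to
`X`, of degree at most `r`, which is assumed to be a morphism from `V°` to `X°` (`RegMap`). It need
not be proper, finite or surjective, and `V°`, `X°` may be singular.
-/

set_option autoImplicit false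

namespace Pool.Agent.Results.MP_dc0411_ag.DominatedOpenHyperbolic

open Pool.Agent.W602.GT Pool.Agent.TH710.ND Pool.Agent.X333.DC
open Pool.Agent.W603.GR (OffQ)
open Pool.Agent.Y221.BD (PseudoBrody)

/-- Let `V`, `V°`, `X`, `X°` be as above, the forms `F i` nested sums with at most `h + 1` levels,
at most `s` summands at each, and exponents at least `4 (n + 1) (h + 1) 10 ^ (2 s) (r + 1) ^ 7`, and
let `V° → X°` be a dominant morphism of degree at most `r`. The following are equivalent, where
outside a closed subset means: outside some hypersurface `R = 0` which does not contain `X`.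
All nonconstant entire curves in `X°` are contained in a proper closed subset; all nonconstant
entire curves in `X` are contained in a proper closed subset; `X°` is of log general type; outside a
closed subset all closed subvarieties of positive dimension of `X°` are of log general type; for
every smooth curve `C`, every point `c` of `C` and every point `p` of `X°` outside a closed subset
there are only finitely many morphisms `C → X°` which map `c` to `p`; the same for all affine
varieties in place of the curve `C` (and for all curves); outside a closed subset there are no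
nonconstant morphisms from the multiplicative group to `X°`; `X` is of general type. -/
theorem result {n M : ℕ} {ι : Type} [Finite ι] {F : ι → MvPolynomial (Fin (n + 1)) ℂ}
    {s N h r : ℕ} (hF : ∀ i, IsForm (F i) ∧ NestedIn IsMono s N h (F i))
    (hN : (n + 1) * ((h + 1) * (4 * 10 ^ (2 * s) * (r + 1) ^ 7)) ≤ N)
    {K : Type} [Field K] [Algebra ℂ K] {w : ℕ} (hw : 1 ≤ w) {y : Fin (n + 1) → K}
    (hy : SubVar F K w y) (hcomp : IsComponent F y) (U : Set (Fin (n + 1))) [Fintype U]
    (hyU : ∀ j ∈ U, y j ≠ 0)
    {L : Type} [Field L] [Algebra ℂ L] [Algebra L K] [IsScalarTower ℂ L K]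
    [FiniteDimensional L K] (hr : Module.finrank L K ≤ r)
    {x : Fin (M + 1) → L} (hx : x ≠ 0) (hgen : coords ℂ x = ⊤)
    {Q : MvPolynomial (Fin (M + 1)) ℂ} {q : ℕ} (hQ : Q.IsHomogeneous q)
    (hreg : RegMap (k := ℂ) U y x Q) :
    [∃ R : MvPolynomial (Fin (M + 1)) ℂ, IsForm R ∧ val x R ≠ 0 ∧ EntQ (eqs ℂ x) Q {R},
      PseudoBrody x, LogGeneralType ℂ L w (OffQ Q q x), StronglyLogQ ℂ x Q q,
      ∃ R : MvPolynomial (Fin (M + 1)) ℂ, IsForm R ∧ val x R ≠ 0 ∧ PtdC (eqs ℂ x) Q q {R},
      ∃ R : MvPolynomial (Fin (M + 1)) ℂ, IsForm R ∧ val x R ≠ 0 ∧
        PtdC (eqs ℂ x) Q q {R} ∧ PtdQ (eqs ℂ x) Q {R},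
      ∃ R : MvPolynomial (Fin (M + 1)) ℂ, IsForm R ∧ val x R ≠ 0 ∧ GmQ (eqs ℂ x) Q {R},
      GeneralType ℂ L w].TFAE :=
  odom_hyp hF hw hN hy hcomp hyU hr hx hgen hQ hreg

end Pool.Agent.Results.MP_dc0411_ag.DominatedOpenHyperbolic
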