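import Pool.Agent.X316.ZU.Aff1

set_option autoImplicit false

open MvPolynomial

namespace Pool.Agent.Results.MP_dc0411_ag.IntegralCurvesAndLines

open Pool.Agent.X316.ZG (dring JointlyUniversal)
open Pool.Agent.X316.ZU

/-- Affine algebraic sets and their closed subsets: curves with coordinates integral over the ring
generated by the zeta function and its derivatives, affine lines, pointed affine lines, and
subvarieties of logarithmic general type. -/
theorem result (n : ℕ) (J J' : Ideal (MvPolynomial (Fin n) ℂ)) :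
    List.TFAE [∀ f, CurveJ (intS (fun _ : Unit => riemannZeta)) J f → LiesIn J' f,
      ∀ f, CurveJ (dring (fun _ : Unit => riemannZeta) : Set (ℂ → ℂ)) J f → LiesIn J' f,
      ∃ (ι : Type) (u : ι → ℂ → ℂ), Nonempty ι ∧ JointlyUniversal u ∧
        ∀ f, CurveJ (dring u : Set (ℂ → ℂ)) J f → LiesIn J' f,
      ∀ (ι : Type) (u : ι → ℂ → ℂ), JointlyUniversal u →
        ∀ f, CurveJ (intS u) J f → LiesIn J' f,
      ∀ p, LineJ J p → LineIn J' p,
      ∀ x : Fin n → ℂ, {q : Fin n → Polynomial ℂ | LineJ J q ∧ ¬ LineIn J' q ∧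
        ∀ j, (q j).eval 0 = x j}.Finite] ∧
    (SubvLogGT J J' → ∀ p, LineJ J p → LineIn J' p) :=
  ⟨affine_set_tfae J J', fun h _ hp => lineIn_of_lgt h hp⟩

end Pool.Agent.Results.MP_dc0411_ag.IntegralCurvesAndLines
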