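import Mathlib
import Pool.Agent.X333.DC.CvoT

/-!
MP_dc0411_ag, Q1: Brody hyperbolicity, subvarieties of log general type and pointed curves for the
complements of hypersurfaces in the images of covers of complex projective varieties given by nested
sums of few high powers of monomials.
-/

set_option autoImplicit false

namespace Pool.Agent.Results.MP_dc0411_ag.NestedCoverHyperbolic

open Pool.Agent.W602.GT Pool.Agent.W603.GR Pool.Agent.TH710.ND Pool.Agent.Y221.FQ
  Pool.Agent.X333.DC

/-- Let `V` be the complex projective variety `F i = 0` in `ℙⁿ`, where the forms `F i` are nested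
sums of high powers of monomials, let `V°` be the complement in `V` of the coordinate hyperplanes
`x_j = 0`, `j` in `U`, let `Y` be a projective variety `{Φ = 0}` in `ℙᴹ`, let `Q` be a form of
degree `q` in `M + 1` variables, and let `X` be the variety `Y \ {Q = 0}`.

First part: let `G : V → Y` be a finite surjective morphism with fibres of at most `r` points such
that the inverse image of `X` is `V°`. The following are equivalent: `X` is Brody hyperbolic; all
closed subvarieties of positive dimension of `X` are of log general type; for every smooth curve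
`C`, every point `c` of `C` and every point `x` of `X` there are only finitely many morphisms
`C → X` which map `c` to `x`; there are no nonconstant morphisms from the multiplicative group to
`X`; there is `A` such that the degrees of the morphisms from projective curves `C` to `Y` whose
image is not in the hypersurface `Q = 0` are at most `A max (2 g (C) - 2, 0)`; all orbits of
one-parameter groups of diagonal matrices in `V°` are points.

Second part: let `W` be a projective variety `{Ψ = 0}` in `ℙᵐ`, with any singularities, and let
`B : W → V` and `G : W → Y` be finite morphisms such that `G` is surjective with fibres of at most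
`r` points and such that `B` maps the inverse image `W°` of `X` under `G` to `V°`. If the images
under `G` of all points of `W°` whose images under `B` lie on a one-dimensional orbit, contained in
`V°`, of a one-parameter group of diagonal matrices are in the set `Δ` of common zeros of a set `T`
of forms, then: all nonconstant entire curves in `Y` which are not in the hypersurface `Q = 0` are
in `Δ`; all closed subvarieties of positive dimension of `X` not contained in `Δ` are of log
general type; their closures are of general type; for every smooth curve `C`, every point `c` of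
`C` and every point `x` of `X` not in `Δ` there are only finitely many morphisms `C → X` which map
`c` to `x`; the same holds for all affine varieties in place of the curve `C`; there is `A` such
that the degrees of the morphisms from projective curves `C` to `Y` whose image is neither in
`{Q = 0}` nor in `Δ` are at most `A max (2 g (C) - 2, 0)`.

Third part: if, in the situation of the second part, no point of `B (W°)` lies on a one-dimensional
orbit in `V°`, then `X` is Brody hyperbolic, all closed subvarieties of positive dimension of `X`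
are of log general type, for every pointed smooth curve there are only finitely many pointed
morphisms to `(X, x)`, and the degrees are bounded as in the first part. -/
theorem result {n M : ℕ} {ι μ : Type} [Finite ι] (U : Set (Fin (n + 1)))
    (F : ι → MvPolynomial (Fin (n + 1)) ℂ) (Φ : μ → MvPolynomial (Fin (M + 1)) ℂ)
    (Q : MvPolynomial (Fin (M + 1)) ℂ) (q r s N h : ℕ)
    (hF : ∀ i, IsForm (F i) ∧ NestedIn IsMono s N h (F i)) (hΦ : ∀ e, IsForm (Φ e)) (hr : 1 ≤ r)
    (hN : (n + 1) * ((h + 1) * (4 * 10 ^ (2 * s) * (r + 1) ^ 7)) ≤ N) (hQ : Q.IsHomogeneous q) :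
    -- images: the conditions are equivalent
    (∀ G : Fin (M + 1) → MvPolynomial (Fin (n + 1)) ℂ, Mor F Φ G → Onto F Φ G → FibresLe F G r →
      (∀ x ∈ Cone F, val (im G x) Q ≠ 0 ↔ ∀ j ∈ U, x j ≠ 0) →
      [BrodyQ Φ Q, AllLgt Φ Q q, FinPtd Φ Q q, NoGm Φ Q, LinCov Φ Q 1,
        ∀ x b, ¬ DiagCurve U F x b].TFAE) ∧
    -- covers and their images: the conditions hold outside a closed subset
    (∀ (m : ℕ) (κ : Type) (Ψ : κ → MvPolynomial (Fin (m + 1)) ℂ)
      (B : Fin (n + 1) → MvPolynomial (Fin (m + 1)) ℂ)
      (G : Fin (M + 1) → MvPolynomial (Fin (m + 1)) ℂ), (∀ e, IsForm (Ψ e)) → Mor Ψ F B →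
      Mor Ψ Φ G → Onto Ψ Φ G → FibresLe Ψ G r →
      (∀ x ∈ Cone Ψ, val (im G x) Q ≠ 0 → ∀ j ∈ U, im B x j ≠ 0) →
      ∀ T : Set (MvPolynomial (Fin (M + 1)) ℂ), (∀ H ∈ T, IsForm H) →
        (∀ x ∈ Cone Ψ, val (im G x) Q ≠ 0 → ∀ b, DiagCurve U F (im B x) b →
          ∀ H ∈ T, val (im G x) H = 0) →
        EntC Φ Q T ∧ LgtQ Φ Q q T ∧ GenQ Φ Q T ∧ PtdC Φ Q q T ∧ PtdQ Φ Q T ∧ CovQ Φ Q T 1) ∧
    -- covers and their images: the conditions hold
    ∀ (m : ℕ) (κ : Type) (Ψ : κ → MvPolynomial (Fin (m + 1)) ℂ)
      (B : Fin (n + 1) → MvPolynomial (Fin (m + 1)) ℂ)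
      (G : Fin (M + 1) → MvPolynomial (Fin (m + 1)) ℂ), (∀ e, IsForm (Ψ e)) → Mor Ψ F B →
      Mor Ψ Φ G → Onto Ψ Φ G → FibresLe Ψ G r →
      (∀ x ∈ Cone Ψ, val (im G x) Q ≠ 0 → ∀ j ∈ U, im B x j ≠ 0) →
      (∀ x ∈ Cone Ψ, val (im G x) Q ≠ 0 → ∀ b, ¬ DiagCurve U F (im B x) b) →
      BrodyQ Φ Q ∧ AllLgt Φ Q q ∧ FinPtd Φ Q q ∧ LinCov Φ Q 1 :=
  ⟨fun _ hG hon hfib hU => strict_tfae hΦ hG hon hfib hF hr hN hQ hU,
    fun _ _ _ _ _ hΨ hB hG hon hfib hU _ hT h =>
      cvo_all hΨ hΦ hB hG hon hfib hF hr hN hQ hU hT h,
    fun _ _ _ _ _ hΨ hB hG hon hfib hU h =>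
      cvo_strict hΨ hΦ hB hG hon hfib hF hr hN hQ hU h⟩

end Pool.Agent.Results.MP_dc0411_ag.NestedCoverHyperbolic
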