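import Pool.Agent.X309.PQ.Gt

/-!
# Hyperbolic quotients of products of open curves are of log general type

MP_dc0411_ag, Q1: for the following quasi-projective varieties `U` over the complex numbers each of
the conditions (1) Brody hyperbolic and (3) finitely many morphisms from pointed curves implies the
part of (2) which concerns `U` itself: `U` is of log general type.

**(A) Quotients of products of open curves.** `L` is the function field of the product of `n` curves
`C i` with function fields `F i`, `G` a finite group of automorphisms of `L` which maps each `F i` to
itself, and `B i` a finite set of points of the quotient curve `C i / G`. Let `U i` be `C i` minus the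
points over `B i`, and `U = (U 0 × ... × U (n - 1)) / G`; its function field is `fixedField G`, and
`QBd F G B` is the set of the places of it whose centre is not on `U`. Suppose `LogPosCond`
(`Pool/Agent/W619/X/Cond.lean`): (a) each `g ≠ 1` in `G` moves at least two of the curves, and for each
`i` the open curve `U i` is the projective or the affine line, or the quotient curve is irrational or
twice the number of points of `B i` plus the number of the other branch points is at least `5` (`4` if
`U i` is elliptic or the projective line minus two points); or (b) each `g ≠ 1` moves at least `7` of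
the curves (`5` if `3` does not divide the order of `G`, `4` if the order is odd, `3` if all the `B i`
are nonempty); or (c) a condition of Reid-Tai type. Then `U` is of log general type, or it is covered
by images of the projective line minus at most two points or of an elliptic curve: there is a
dominant rational map to `U` from the product of a variety and such a curve which is a morphism on the
generic fibre (`IsLowCovered`, `Pool/Agent/W619/TW/SDefs.lean`). In the second case neither (1) nor (3)
holds for `U`, since these curves are images of the complex plane and have infinitely many
endomorphisms with a given fixed point, respectively (this remark is not formalised).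

**(B) Projective quotients, with groups which permute the curves.** Let `Y` be a projective variety of
dimension `d`, of general type or a point, `C i` (`i < n`) projective curves, `L` the function field of
`Y × C 0 × ... × C (n - 1)`, and `G` a finite group of automorphisms of `L` which permutes the curves
through `σ`, with the condition `MixedPos` (`Pool/Agent/W619/Y/Cond.lean`), for instance such that the
fixed loci of the `g ≠ 1` on the product of the curves are empty or of codimension at least `7`. Let
`X` be any projective variety, smooth or not, with function field `fixedField G` and generic point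
`x`. If all morphisms from curves of genus zero and one to `X` with image not contained in the closed
subset `{H = 0}` are constant, then `X` is of general type. If (1) or (3) holds for `X`, these
morphisms are constant (with `H = 1`).
-/

set_option autoImplicit false
set_option linter.overlappingInstances false

namespace Pool.Agent.Results.MP_dc0411_ag.OpenProductQuotients

open FF IntermediateField Pool.Agent.W619.Y Pool.Agent.W619.TW Pool.Agent.W619.PL
  Pool.Agent.X309.PQ
open Pool.Agent.W602.GT (coords IsForm val)
open Pool.Agent.W619.X (LogPosCond)

/-- (A) Log general type, or covered by images of a curve which is not of log general type, for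
quotients of products of open curves. See the description of the file. -/
def OpenCase : Prop :=
  ∀ (L : Type) [Field L] [Algebra ℂ L] (n : ℕ), Algebra.trdeg ℂ L = n →
    ∀ F : Fin n → IntermediateField ℂ L, (∀ i, IsFF ℂ (F i)) → (⨆ i, F i = ⊤) →
    ∀ (G : Subgroup (L ≃ₐ[ℂ] L)) [Finite G], (∀ i, ∀ g ∈ G, ∀ z ∈ F i, g z ∈ F i) →
    ∀ B : ∀ i, Set (Place ℂ ↥(F i ⊓ fixedField G)), (∀ i, (B i).Finite) →
    LogPosCond G F B →
    KodGe ℂ (fixedField G) n (QBd F G B) n ∨ IsLowCovered ℂ (fixedField G) n (QBd F G B)

/-- (B) General type for projective quotients of products without curves of genus at most one outside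
a closed subset. See the description of the file. -/
def ProjectiveCase : Prop :=
  ∀ (L : Type) [Field L] [Algebra ℂ L] (d n : ℕ), Algebra.trdeg ℂ L = (d + n : ℕ) →
    ∀ (M : IntermediateField ℂ L) [Algebra.EssFiniteType ℂ M], Algebra.trdeg ℂ M = d →
    (d = 0 ∨ KodTr ℂ M d d) →
    ∀ F : Fin n → IntermediateField ℂ L, (∀ i, IsFF ℂ (F i)) → M ⊔ (⨆ i, F i) = ⊤ →
    ∀ (G : Subgroup (L ≃ₐ[ℂ] L)) [Finite G] (σ : G →* Equiv.Perm (Fin n)),
    (∀ (g : G) i, ∀ z ∈ F i, (g : L ≃ₐ[ℂ] L) z ∈ F (σ g i)) → MixedPos G σ F →
    ∀ (N : ℕ) (x : Fin (N + 1) → fixedField G), x ≠ 0 → coords ℂ x = ⊤ →
    ∀ H : MvPolynomial (Fin (N + 1)) ℂ, IsForm H → val x H ≠ 0 → NoLow ℂ x H →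
    KodGe ℂ (fixedField G) (d + n) (fun _ => False) (d + n)

/-- **Hyperbolicity and log general type** for quotients of products of open curves, and for
projective quotients with groups which permute the curves. -/
theorem result : OpenCase ∧ ProjectiveCase := by
  refine ⟨?_, ?_⟩
  · intro L _ _ n hn F hF hsup G _ hst B hB h
    have halg : Algebra.IsAlgebraic ↥(⨆ i, F i) L := ⟨fun z => by
      have hz : z ∈ (⨆ i, F i) := by rw [hsup]; trivial
      exact isAlgebraic_algebraMap (⟨z, hz⟩ : ↥(⨆ i, F i))⟩
    obtain ⟨h1, h2⟩ := Pool.Agent.W619.X.gtL n hn F hF halg G hst B hB h
    by_cases hlow : ∃ i, IsNegative inf_le_left (B i) ∨ IsFlat inf_le_left (B i)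
    · exact Or.inr (h2 hsup hlow)
    · exact Or.inl (h1 fun i => not_or.1 fun hi => hlow ⟨i, hi⟩)
  · intro L _ _ d n hn M _ hM hY F hF hsup G _ σ hσ h N x hx hgen H hH hH0 hno
    exact Pool.Agent.X309.PQ.main d n hn M hM hY F hsup G σ hσ (Or.inl h) x hx hgen H hH hH0 hno

end Pool.Agent.Results.MP_dc0411_ag.OpenProductQuotients
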